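import Pool.Agent.Work.MP_bf6e36_co.PHOne
import Pool.Agent.Work.MP_bf6e36_co.PHNorm
import Pool.Agent.Work.MP_bf6e36_co.PHCor

/-! # Large p-hexagons in bodies with a large quadrilateral or a large difference body -/

set_option autoImplicit false

namespace Pool.Agent.Results.MP_bf6e36_co.LargeQuadrilateral

open MeasureTheory Set
open scoped Pointwise
open Pool.Agent.Work.MP_bf6e36_co.PH

/-- Let `K` be a nonempty compact convex set in the plane. If `K` contains a quadrilateral of area
at least `0.7265 |K|` (points `a, b, c, d` of `K` with `(b - a) x (d - c) ≥ 1.453 |K|`), or if the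
difference body has area at least `4.565 |K|`, then `K` contains a p-hexagon of area at least
`(3 √3 / (2 π)) |K|`. -/
theorem result (K : Set (ℝ × ℝ)) (hK : IsCompact K) (hc : Convex ℝ K) (hne : K.Nonempty)
    (h : (∃ a ∈ K, ∃ b ∈ K, ∃ c ∈ K, ∃ d ∈ K,
        1453 / 1000 * volume.real K ≤ cr (b - a) (d - c)) ∨
      4565 / 1000 * volume.real K ≤ volume.real (K - K)) :
    ∃ v : Fin 6 → ℝ × ℝ, IsPHex v ∧ (∀ i, v i ∈ K) ∧
      3 * Real.sqrt 3 / (2 * Real.pi) * volume.real K ≤
        volume.real (convexHull ℝ (Set.range v)) := by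
  rcases eq_or_lt_of_le (measureReal_nonneg : 0 ≤ volume.real K) with h0 | h0
  · exact cor_zero hne h0.symm
  have hq : ∃ a ∈ K, ∃ b ∈ K, ∃ c ∈ K, ∃ d ∈ K,
      1453 / 1000 * volume.real K ≤ cr (b - a) (d - c) := by
    rcases h with h | h
    · exact h
    · obtain ⟨a, ha, b, hb, c, hc', d, hd, h1⟩ := diff_quad hK hc hne
      refine ⟨a, ha, b, hb, c, hc', d, hd, ?_⟩
      have h2 : Real.pi < 3.141593 := Real.pi_lt_d6
      have h3 : 4565 / 1000 * volume.real K ≤ Real.pi * cr (b - a) (d - c) := h.trans h1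
      have h4 : 0 < cr (b - a) (d - c) := by
        by_contra hcon
        push Not at hcon
        have : Real.pi * cr (b - a) (d - c) ≤ 0 :=
          mul_nonpos_of_nonneg_of_nonpos Real.pi_pos.le hcon
        nlinarith
      nlinarith
  obtain ⟨a, ha, b, hb, c, hc', d, hd, hX⟩ := hq
  have hX0 : 0 < cr (b - a) (d - c) := by nlinarith
  refine cor_quad (X := cr (b - a) (d - c)) ?_ hX
  exact main_quad_of (k1 := 9/100) (k2 := 658/1000) (by norm_num)
    (fun hK hc X hX a c d ha hb hcK hdK hmax hcd hy =>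
      onedir hK hc hX ha hb hcK hdK hmax hcd hy (by norm_num) (by norm_num) (by norm_num)
        (by norm_num)) hK hc ha hb hc' hd hX0

end Pool.Agent.Results.MP_bf6e36_co.LargeQuadrilateral
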